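import Pool.Agent.QSN.StmtsB2

/-!
# Row CTR of squad QSN: the contradiction
-/

set_option autoImplicit false

namespace Pool.Agent.QSN.H88

open Matrix Finset Pool.Agent.QSX Pool.Agent.QSN Filter Topology

theorem md_of_le_one {S : Scale} (h1 : ∀ s, 1 ≤ S.R s) {z : ℕ → ℝ} (hz : ∀ s, |z s| ≤ 1) :
    S.Md z := by
  intro ε hε
  refine Eventually.of_forall fun s => (hz s).trans ?_
  rw [Real.one_le_exp_iff]
  have := h1 s
  positivity

theorem md_sum {S : Scale} {D : ℕ} {z : Fin D → ℕ → ℝ} (hz : ∀ k, S.Md (z k)) :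
    S.Md (fun s => ∑ k, z k s) := by
  have h : (∑ k, z k) ∈ S.OO := Subalgebra.sum_mem _ fun k _ => hz k
  have h2 : (fun s => ∑ k, z k s) = ∑ k, z k := by
    ext s
    rw [Finset.sum_apply]
  rw [h2]
  exact h

/-- row CTR -/
theorem ctr (scl : SclStmt) : CtrStmt := by
  intro X Y hX H A Q j u hu hu0 hu1 hcon
  obtain ⟨c, hc, hscl⟩ := scl X Y hX H A Q j u hu hu0
  set θ := hX.rt (hX.top j) with hθ
  set Λ : Fin Y.m → Fin Y.m → ℕ → ℝ := fun i l s =>
    ∑ k, u s k * Q.T s (sh (A.M s) k) i l with hΛ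
  have hR1 : ∀ s, 1 ≤ A.S.R s := A.one_le
  -- a₁
  obtain ⟨ap, hap⟩ := hX.pos
  obtain ⟨a₁, ha₁⟩ : ∃ a₁ : X.b, θ a₁ = 1 := by
    refine ⟨(θ ap)⁻¹ • ap, ?_⟩
    rw [map_smul, smul_eq_mul]
    exact inv_mul_cancel₀ (hap _).ne'
  -- the constant c₃
  obtain ⟨c₃, hc₃, hc₃c, hc₃1, hk⟩ : ∃ c₃ : ℝ, 0 < c₃ ∧ c₃ ≤ c ∧ c₃ ≤ 1 ∧
      ∀ i l : Fin Y.m, i < l →
        (∀ᶠ s in (A.S.ω : Filter ℕ), |Λ i l s| ≤ Real.exp (-(c₃ * A.S.R s))) ∨
        ∃ κ : ℝ, 0 < κ ∧ κ < 1 ∧ ∀ a, A.P a i - A.P a l = κ * θ a := by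
    have e1 : ∀ᶠ c' in 𝓝[>] (0 : ℝ), 0 < c' := eventually_mem_nhdsWithin
    have e2 : ∀ᶠ c' in 𝓝[>] (0 : ℝ), c' ≤ c :=
      (eventually_le_nhds hc).filter_mono nhdsWithin_le_nhds
    have e3 : ∀ᶠ c' in 𝓝[>] (0 : ℝ), c' ≤ 1 :=
      (eventually_le_nhds one_pos).filter_mono nhdsWithin_le_nhds
    have e4 : ∀ᶠ c' in 𝓝[>] (0 : ℝ), ∀ i l : Fin Y.m, i < l →
        (∀ᶠ s in (A.S.ω : Filter ℕ), |Λ i l s| ≤ Real.exp (-(c' * A.S.R s))) ∨
        ∃ κ : ℝ, 0 < κ ∧ κ < 1 ∧ ∀ a, A.P a i - A.P a l = κ * θ a := by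
      rw [eventually_all]
      intro i
      rw [eventually_all]
      intro l
      by_cases hil : i < l
      · rcases hcon i l hil with h | h
        · obtain ⟨d, hd, h⟩ := h
          filter_upwards [(eventually_le_nhds hd).filter_mono nhdsWithin_le_nhds] with c' hc' _
          left
          filter_upwards [h] with s hs
          refine hs.trans (Real.exp_le_exp.mpr ?_)
          have h1 := mul_le_mul_of_nonneg_right hc' (zero_le_one.trans (hR1 s))
          linarith
        · exact Eventually.of_forall fun c' _ => Or.inr h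
      · exact Eventually.of_forall fun c' h => absurd h hil
    obtain ⟨c₃, h1, h2, h3, h4⟩ := (e1.and (e2.and (e3.and e4))).exists
    exact ⟨c₃, h1, h2, h3, h4⟩
  -- the constant W
  obtain ⟨W, hW1, hWa, hW⟩ : ∃ W : ℝ, 1 ≤ W ∧ ‖a₁‖ ≤ W ∧
      ∀ i l : Fin Y.m, |A.P a₁ i - A.P a₁ l| ≤ W := by
    have e4 : ∀ᶠ W in (atTop : Filter ℝ), ∀ i l : Fin Y.m, |A.P a₁ i - A.P a₁ l| ≤ W := by
      rw [eventually_all]
      intro i
      rw [eventually_all]
      intro l
      exact eventually_ge_atTop _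
    obtain ⟨W, h1, h2, h3⟩ :=
      ((eventually_ge_atTop (1 : ℝ)).and ((eventually_ge_atTop ‖a₁‖).and e4)).exists
    exact ⟨W, h1, h2, h3⟩
  have hW0 : 0 < W := by linarith
  set t : ℝ := c₃ / (4 * W) with ht
  have ht0 : 0 < t := by positivity
  have htW : t * W = c₃ / 4 := by
    rw [ht]
    field_simp
  have htc : t ≤ c₃ / 4 := by nlinarith
  -- the constant σ
  obtain ⟨σ, hσ0, hσt, hσ⟩ : ∃ σ : ℝ, 0 < σ ∧ σ ≤ t ∧ ∀ i l : Fin Y.m,
      (∃ κ : ℝ, 0 < κ ∧ κ < 1 ∧ ∀ a, A.P a i - A.P a l = κ * θ a) →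
      ∃ κ : ℝ, 0 < κ ∧ κ * (t + σ) ≤ t ∧ ∀ a, A.P a i - A.P a l = κ * θ a := by
    have e1 : ∀ᶠ σ in 𝓝[>] (0 : ℝ), 0 < σ := eventually_mem_nhdsWithin
    have e2 : ∀ᶠ σ in 𝓝[>] (0 : ℝ), σ ≤ t :=
      (eventually_le_nhds ht0).filter_mono nhdsWithin_le_nhds
    have e4 : ∀ᶠ σ in 𝓝[>] (0 : ℝ), ∀ i l : Fin Y.m,
        (∃ κ : ℝ, 0 < κ ∧ κ < 1 ∧ ∀ a, A.P a i - A.P a l = κ * θ a) →
        ∃ κ : ℝ, 0 < κ ∧ κ * (t + σ) ≤ t ∧ ∀ a, A.P a i - A.P a l = κ * θ a := by
      rw [eventually_all]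
      intro i
      rw [eventually_all]
      intro l
      by_cases h : ∃ κ : ℝ, 0 < κ ∧ κ < 1 ∧ ∀ a, A.P a i - A.P a l = κ * θ a
      · obtain ⟨κ, h0, h1, h2⟩ := h
        have h3 : 0 < t * (1 - κ) := mul_pos ht0 (by linarith)
        filter_upwards [(eventually_le_nhds h3).filter_mono nhdsWithin_le_nhds, e1] with σ hσ hσ0 _
        refine ⟨κ, h0, ?_, h2⟩
        nlinarith
      · exact Eventually.of_forall fun σ h' => absurd h' h
    obtain ⟨σ, h1, h2, h3⟩ := (e1.and (e2.and e4)).exists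
    exact ⟨σ, h1, h2, h3⟩
  set a : X.b := -((t + σ) • a₁) with ha
  have hts : 0 < t + σ := by linarith
  have hna : ‖a‖ ≤ 1 := by
    rw [ha, norm_neg, norm_smul, Real.norm_eq_abs, abs_of_pos hts]
    calc (t + σ) * ‖a₁‖ ≤ (t + t) * W := by gcongr
      _ = c₃ / 2 := by linarith
      _ ≤ 1 := by linarith
  have hθa : θ a = -(t + σ) := by
    rw [ha, map_neg, map_smul, ha₁, smul_eq_mul, mul_one]
  obtain ⟨τ, hτ, -, hτf⟩ := hscl t ht0.le
  refine hτf hu1 a hna (by rw [hθa]; linarith) ?_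
  -- the class condition
  intro ε hε
  have key : ∀ i l : Fin Y.m, ∀ᶠ s in (A.S.ω : Filter ℕ), i < l →
      |τ s i l| ≤ Real.exp (A.S.R s * (A.P a i - A.P a l + ε)) := by
    intro i l
    by_cases hil : i < l
    swap
    · exact Eventually.of_forall fun s h => absurd h hil
    have hwa : A.P a i - A.P a l = -((t + σ) * (A.P a₁ i - A.P a₁ l)) := by
      rw [ha, map_neg, map_smul, Pi.neg_apply, Pi.neg_apply, Pi.smul_apply, Pi.smul_apply,
        smul_eq_mul, smul_eq_mul]
      ring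
    rcases hk i l hil with h | h
    · -- small entries
      filter_upwards [h, hτ i l, A.S.ev_R (Real.log 2 / ε)] with s h1 h2 h3 _
      have hR := hR1 s
      have h4 : |τ s i l| ≤ 2 * Real.exp (-(c₃ * A.S.R s)) := by
        have h5 : |τ s i l| ≤ |τ s i l - Real.exp (-(t * A.S.R s)) * Λ i l s| +
            |Real.exp (-(t * A.S.R s)) * Λ i l s| := by
          have := abs_add_le (τ s i l - Real.exp (-(t * A.S.R s)) * Λ i l s)
            (Real.exp (-(t * A.S.R s)) * Λ i l s)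
          rwa [sub_add_cancel] at this
        have h6 : |Real.exp (-(t * A.S.R s)) * Λ i l s| ≤ Real.exp (-(c₃ * A.S.R s)) := by
          rw [abs_mul, abs_of_pos (Real.exp_pos _)]
          have h7 : Real.exp (-(t * A.S.R s)) ≤ 1 := by
            rw [Real.exp_le_one_iff]
            have : 0 ≤ t * A.S.R s := by positivity
            linarith
          calc Real.exp (-(t * A.S.R s)) * |Λ i l s| ≤ 1 * Real.exp (-(c₃ * A.S.R s)) := by
                gcongr
            _ = _ := one_mul _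
        have h8 : Real.exp (-(c * A.S.R s)) ≤ Real.exp (-(c₃ * A.S.R s)) := by
          refine Real.exp_le_exp.mpr ?_
          have := mul_le_mul_of_nonneg_right hc₃c (zero_le_one.trans hR)
          linarith
        linarith
      refine h4.trans ?_
      have h9 : Real.log 2 ≤ A.S.R s * ε := by
        rw [div_le_iff₀ hε] at h3
        exact h3
      have h10 : -(c₃ / 2) ≤ A.P a i - A.P a l := by
        rw [hwa]
        have h11 : (t + σ) * (A.P a₁ i - A.P a₁ l) ≤ (t + t) * W := by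
          have h12 := (le_abs_self _).trans (hW i l)
          calc (t + σ) * (A.P a₁ i - A.P a₁ l) ≤ (t + σ) * W := by gcongr
            _ ≤ (t + t) * W := by gcongr
        linarith
      calc 2 * Real.exp (-(c₃ * A.S.R s)) =
            Real.exp (Real.log 2) * Real.exp (-(c₃ * A.S.R s)) := by
              rw [Real.exp_log two_pos]
        _ = Real.exp (Real.log 2 + -(c₃ * A.S.R s)) := (Real.exp_add _ _).symm
        _ ≤ _ := by
          refine Real.exp_le_exp.mpr ?_
          have h12 : 0 ≤ A.S.R s * (A.P a i - A.P a l + c₃) :=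
            mul_nonneg (zero_le_one.trans hR) (by linarith)
          nlinarith
    · -- entries of weight κ θ
      obtain ⟨κ, hκ0, hκt, hκ⟩ := hσ i l h
      have hmd : A.S.Md (Λ i l) := by
        refine md_sum (z := fun k s => u s k * Q.T s (sh (A.M s) k) i l) fun k => ?_
        refine Scale.Md.mul (z := fun s => u s k)
          (w := fun s => Q.T s (sh (A.M s) k) i l) (md_of_le_one hR1 fun s => hu s k) ?_
        refine Q.md (fun s => sh (A.M s) k) ?_ i l
        intro s k'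
        unfold sh
        by_cases hkk : k' = k
        · rw [hkk, Pi.single_eq_same]
          simp
        · rw [Pi.single_eq_of_ne hkk]
          simp
      filter_upwards [hmd (ε / 2) (by positivity), hτ i l,
        A.S.ev_R (Real.log 2 / (ε / 2))] with s h1 h2 h3 _
      have hR := hR1 s
      have h4 : |τ s i l| ≤ 2 * Real.exp (-(t * A.S.R s) + ε / 2 * A.S.R s) := by
        have h5 : |τ s i l| ≤ |τ s i l - Real.exp (-(t * A.S.R s)) * Λ i l s| +
            |Real.exp (-(t * A.S.R s)) * Λ i l s| := by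
          have := abs_add_le (τ s i l - Real.exp (-(t * A.S.R s)) * Λ i l s)
            (Real.exp (-(t * A.S.R s)) * Λ i l s)
          rwa [sub_add_cancel] at this
        have h6 : |Real.exp (-(t * A.S.R s)) * Λ i l s| ≤
            Real.exp (-(t * A.S.R s) + ε / 2 * A.S.R s) := by
          rw [abs_mul, abs_of_pos (Real.exp_pos _), Real.exp_add]
          gcongr
        have h8 : Real.exp (-(c * A.S.R s)) ≤ Real.exp (-(t * A.S.R s) + ε / 2 * A.S.R s) := by
          refine Real.exp_le_exp.mpr ?_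
          have h9 : t ≤ c := by linarith
          have := mul_le_mul_of_nonneg_right h9 (zero_le_one.trans hR)
          have h10 : 0 ≤ ε / 2 * A.S.R s := by positivity
          linarith
        linarith
      refine h4.trans ?_
      have h9 : Real.log 2 ≤ A.S.R s * (ε / 2) := by
        rw [div_le_iff₀ (by positivity)] at h3
        exact h3
      have h10 : -t ≤ A.P a i - A.P a l := by
        rw [hκ a, hθa]
        linarith
      calc 2 * Real.exp (-(t * A.S.R s) + ε / 2 * A.S.R s) =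
            Real.exp (Real.log 2) * Real.exp (-(t * A.S.R s) + ε / 2 * A.S.R s) := by
              rw [Real.exp_log two_pos]
        _ = Real.exp (Real.log 2 + (-(t * A.S.R s) + ε / 2 * A.S.R s)) := (Real.exp_add _ _).symm
        _ ≤ _ := by
          refine Real.exp_le_exp.mpr ?_
          have h12 : 0 ≤ A.S.R s * (A.P a i - A.P a l + t) :=
            mul_nonneg (zero_le_one.trans hR) (by linarith)
          nlinarith
  have key2 : ∀ᶠ s in (A.S.ω : Filter ℕ), ∀ i l : Fin Y.m, i < l →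
      |τ s i l| ≤ Real.exp (A.S.R s * (A.P a i - A.P a l + ε)) := by
    rw [eventually_all]
    intro i
    rw [eventually_all]
    intro l
    exact key i l
  filter_upwards [key2] with s hs b hb i l hil
  rw [Set.mem_singleton_iff.mp hb]
  exact hs i l hil

end Pool.Agent.QSN.H88
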