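import Pool.Agent.QSN.StmtsB
import Pool.Agent.Helper41_QSX.PRT
import Pool.Agent.Helper95_QSX.BCH
import Pool.Agent.Helper28_QSX.LGM
import Pool.Agent.Helper24_QSX.CLG
import Pool.Agent.Helper3_QSX.LGP
import Pool.Agent.Helper99_QSX.DEX

/-!
# Row GAQ of squad QSN: the gauge
-/

set_option autoImplicit false

namespace Pool.Agent.QSN.H88

open Matrix Finset Pool.Agent.QSX Pool.Agent.QSN

/-- a linear functional which vanishes on the cone of all roots is zero -/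
theorem functional_zero {X : Dat} (hX : MS X) (φ : X.b →ₗ[ℝ] ℝ)
    (h : ∀ a ∈ hX.dual Set.univ, φ a = 0) : φ = 0 := by
  ext a
  obtain ⟨a₀, ha₀⟩ := hX.pos
  set T : ℝ := ∑ l : hX.ι, |hX.rt l a| / hX.rt l a₀ with hT
  have h0 : a₀ ∈ hX.dual Set.univ := fun ν _ => (ha₀ ν).le
  have h1 : T • a₀ + a ∈ hX.dual Set.univ := by
    intro ν _
    rw [map_add, map_smul, smul_eq_mul]
    have h2 : |hX.rt ν a| / hX.rt ν a₀ ≤ T :=
      single_le_sum (f := fun l => |hX.rt l a| / hX.rt l a₀)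
        (fun l _ => div_nonneg (abs_nonneg _) (ha₀ l).le) (mem_univ ν)
    rw [div_le_iff₀ (ha₀ ν)] at h2
    have h3 := neg_abs_le (hX.rt ν a)
    linarith
  have h2 := h _ h1
  rw [map_add, map_smul, h _ h0, smul_zero, zero_add] at h2
  exact h2

/-- the weight zero part of an element -/
noncomputable def p0 {X Y : Dat} (P : X.b →ₗ[ℝ] (Fin Y.m → ℝ)) (g : UX Y) : UX Y :=
  ue (part P (fun _ => 0) (mlog (g : Matrix (Fin Y.m) (Fin Y.m) ℝ)))

/-- the class condition for products and inverses -/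
theorem cl_mul {S : Scale} {V : Type} {m : ℕ} {P : V → Fin m → ℝ} {B : Set V}
    {g h : ℕ → (Matrix (Fin m) (Fin m) ℝ)ˣ}
    (hg : ∀ s, UU (g s : Matrix (Fin m) (Fin m) ℝ)) (hh : ∀ s, UU (h s : Matrix (Fin m) (Fin m) ℝ))
    (hgc : S.Cl P B (fun s => (g s : Matrix (Fin m) (Fin m) ℝ)))
    (hhc : S.Cl P B (fun s => (h s : Matrix (Fin m) (Fin m) ℝ))) :
    S.Cl P B (fun s => ((g s * h s : (Matrix (Fin m) (Fin m) ℝ)ˣ) : Matrix _ _ ℝ)) :=
  (H24.clg S V m P B (fun s _ => g s) (fun s _ => h s) (fun s _ => hg s) (fun s _ => hh s)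
    hgc hhc).1

theorem cl_inv {S : Scale} {V : Type} {m : ℕ} {P : V → Fin m → ℝ} {B : Set V}
    {g : ℕ → (Matrix (Fin m) (Fin m) ℝ)ˣ}
    (hg : ∀ s, UU (g s : Matrix (Fin m) (Fin m) ℝ))
    (hgc : S.Cl P B (fun s => (g s : Matrix (Fin m) (Fin m) ℝ))) :
    S.Cl P B (fun s => (((g s)⁻¹ : (Matrix (Fin m) (Fin m) ℝ)ˣ) : Matrix _ _ ℝ)) :=
  (H24.clg S V m P B (fun s _ => g s) (fun s _ => g s) (fun s _ => hg s) (fun s _ => hg s)
    hgc hgc).2

/-- row GAQ -/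
theorem gaq (gze : GzeStmt) : GaqStmt := by
  classical
  intro X Y hX H hV
  obtain ⟨V⟩ := hV
  obtain ⟨G, hG⟩ := H3.lgp (H95.bch H28.lgm H99.dex) ℝ Y.m Y.n Y.su Y.lie
  have hψG : ∀ s n, V.ψ s n ∈ G := fun s n => (hG _).2 (V.ψn s n)
  have hUU : ∀ g ∈ G, UU ((g : UX Y) : Matrix (Fin Y.m) (Fin Y.m) ℝ) := by
    intro g hg
    obtain ⟨y, hy, e⟩ := (hG g).1 hg
    rw [e, ue_val (Y.su y hy)]
    exact ((H28.lgm ℝ Y.m).1 y (Y.su y hy)).1
  have hp0 : ∀ g ∈ G, p0 V.P g ∈ G := by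
    intro g hg
    obtain ⟨y, hy, e⟩ := (hG g).1 hg
    rw [hG]
    refine ⟨part V.P (fun _ => 0) y, ?_, ?_⟩
    · exact (H41.prt Y X.b V.P V.Pb 0 0 y ⟨hy, fun i l hl => Y.su y hy i l
        (by rw [Fin.le_def]; omega)⟩).1
    · unfold p0
      rw [e, ue_val (Y.su y hy), ((H28.lgm ℝ Y.m).1 y (Y.su y hy)).2]
  -- the base point
  let g : ℕ → UX X → UX Y := fun s n => (V.ψ s 1)⁻¹ * V.ψ s n
  have hgG : ∀ s n, g s n ∈ G := fun s n => G.mul_mem (G.inv_mem (hψG s 1)) (hψG s n)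
  let χ : ℕ → UX X → UX Y := fun s n => V.ψ s n * (p0 V.P (g s n))⁻¹
  have hχG : ∀ s n, χ s n ∈ G := fun s n =>
    G.mul_mem (hψG s n) (G.inv_mem (hp0 _ (hgG s n)))
  have hgood1 : V.toBas.Good (fun _ => 1) := V.gam 1 (one_mem _)
  -- the class condition for g
  have hgcl : ∀ n : ℕ → UX X, V.toBas.Good n → V.toBas.Bd n →
      V.S.Cl V.P ({a | ‖a‖ ≤ 1} ∩ hX.dual Set.univ) (fun s => ((g s (n s) : UX Y) : Matrix (Fin Y.m) (Fin Y.m) ℝ)) := by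
    intro n hn hb
    obtain ⟨K, hK⟩ := hb
    let z : ℕ → Matrix (Fin X.m) (Fin X.m) ℝ := fun s =>
      if h : ∃ x ∈ X.n, n s = ue x ∧ ∀ i j, |x i j| ≤ K then h.choose else 0
    have h1 := V.near (fun _ => 1) n hgood1 hn Set.univ z K 0 le_rfl (by
      filter_upwards [hK] with s hs
      have hz : z s = hs.choose := dif_pos hs
      obtain ⟨h2, h3, h4⟩ := hs.choose_spec
      rw [hz]
      refine ⟨?_, ?_, ?_⟩
      · rw [Set.image_univ, hX.span_e]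
        exact h2
      · intro i j
        rw [zero_mul, neg_zero, Real.exp_zero, mul_one]
        exact h4 i j
      · rw [one_mul]
        exact h3)
    have h2 : {a : X.b | ∀ ν ∈ (Set.univ : Set hX.ι), -(0 : ℝ) ≤ hX.rt ν a} =
        hX.dual Set.univ := by
      rw [neg_zero]
      rfl
    rw [h2] at h1
    exact h1
  have hS : ∀ φ : X.b →ₗ[ℝ] ℝ, (∀ a ∈ hX.dual Set.univ, φ a = 0) → φ = 0 := functional_zero hX
  have hK0 : (0 : X.b) ∈ hX.dual Set.univ := by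
    intro ν _
    rw [map_zero]
  have hKc : ∀ a ∈ hX.dual Set.univ, ∀ c : ℝ, 0 ≤ c → c • a ∈ hX.dual Set.univ := by
    intro a ha c hc ν hν
    rw [map_smul, smul_eq_mul]
    exact mul_nonneg hc (ha ν hν)
  have hze := fun (n n' : ℕ → UX X) (hn : V.toBas.Good n) (hb : V.toBas.Bd n)
      (hn' : V.toBas.Good n') (hb' : V.toBas.Bd n') =>
    gze V.S Y X.b V.P V.Pb (hX.dual Set.univ) hK0 hKc hS (fun s => g s (n s))
      (fun s => g s (n' s)) (fun s => (hG _).1 (hgG s (n s))) (fun s => (hG _).1 (hgG s (n' s)))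
      (hgcl n hn hb) (hgcl n' hn' hb')
  -- the class condition for p0
  have hpcl : ∀ n : ℕ → UX X, V.toBas.Good n → V.toBas.Bd n → ∀ B : Set X.b,
      V.S.Cl V.P B (fun s => ((p0 V.P (g s (n s)) : UX Y) : Matrix (Fin Y.m) (Fin Y.m) ℝ)) := fun n hn hb =>
    (hze n n hn hb hn hb).1
  have hpU : ∀ (n : ℕ → UX X) s, UU ((p0 V.P (g s (n s)) : UX Y) : Matrix (Fin Y.m) (Fin Y.m) ℝ) := fun n s =>
    hUU _ (hp0 _ (hgG s (n s)))
  -- the differences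
  have hd : ∀ s n n', (χ s n)⁻¹ * χ s n' =
      p0 V.P (g s n) * ((V.ψ s n)⁻¹ * V.ψ s n') * (p0 V.P (g s n'))⁻¹ := by
    intro s n n'
    show (V.ψ s n * (p0 V.P (g s n))⁻¹)⁻¹ * (V.ψ s n' * (p0 V.P (g s n'))⁻¹) = _
    group
  have hd2 : ∀ s n n', (χ s n)⁻¹ * χ s n' =
      (g s n * (p0 V.P (g s n))⁻¹)⁻¹ * (g s n' * (p0 V.P (g s n'))⁻¹) := by
    intro s n n'
    show (V.ψ s n * (p0 V.P (g s n))⁻¹)⁻¹ * (V.ψ s n' * (p0 V.P (g s n'))⁻¹) =
      ((V.ψ s 1)⁻¹ * V.ψ s n * (p0 V.P (g s n))⁻¹)⁻¹ *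
        ((V.ψ s 1)⁻¹ * V.ψ s n' * (p0 V.P (g s n'))⁻¹)
    group
  have hd3 : ∀ s n n', (V.ψ s n)⁻¹ * V.ψ s n' =
      (p0 V.P (g s n))⁻¹ * ((χ s n)⁻¹ * χ s n') * p0 V.P (g s n') := by
    intro s n n'
    rw [hd]
    group
  refine ⟨{ toBas := V.toBas
            χ := χ
            χn := fun s n => (hG _).1 (hχG s n)
            near := ?_
            zero := ?_
            far := ?_ }⟩
  · intro n n' hn hn' hb hb' Ψ z K t ht h
    have h1 := V.near n n' hn hn' Ψ z K t ht h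
    have h2 := hpcl n hn hb ({a | ‖a‖ ≤ 1} ∩ {a | ∀ ν ∈ Ψ, -t ≤ hX.rt ν a})
    have h3 := cl_inv (hpU n') (hpcl n' hn' hb' ({a | ‖a‖ ≤ 1} ∩ {a | ∀ ν ∈ Ψ, -t ≤ hX.rt ν a}))
    have hq : ∀ s, (V.ψ s (n s))⁻¹ * V.ψ s (n' s) ∈ G := fun s =>
      G.mul_mem (G.inv_mem (hψG s _)) (hψG s _)
    have h4 := cl_mul (hpU n) (fun s => hUU _ (hq s)) h2 h1
    have h5 := cl_mul (fun s => hUU _ (G.mul_mem (hp0 _ (hgG s (n s))) (hq s)))
      (fun s => hUU _ (G.inv_mem (hp0 _ (hgG s (n' s))))) h4 h3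
    simp only [← hd] at h5
    exact h5
  · intro n n' hn hn' hb hb' i l hil h
    have h1 := (hze n n' hn hb hn' hb').2 i l hil h
    simp only [hd2]
    exact h1
  · intro n n' hn hn' hb hb' l z c t hc ht h a ha1 ha2 hcl
    refine V.far n n' hn hn' l z c t hc ht h a ha1 ha2 ?_
    have hq : ∀ s, (χ s (n s))⁻¹ * χ s (n' s) ∈ G := fun s =>
      G.mul_mem (G.inv_mem (hχG s _)) (hχG s _)
    have h2 := cl_inv (hpU n) (hpcl n hn hb {a})
    have h4 := cl_mul (fun s => hUU _ (G.inv_mem (hp0 _ (hgG s (n s)))))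
      (fun s => hUU _ (hq s)) h2 hcl
    have h5 := cl_mul (fun s => hUU _ (G.mul_mem (G.inv_mem (hp0 _ (hgG s (n s)))) (hq s)))
      (hpU n') h4 (hpcl n' hn' hb' {a})
    simp only [← hd3] at h5
    exact h5

end Pool.Agent.QSN.H88
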